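import Mathlib

namespace Pool.Agent.Results.MP_78a590_co.Disproof

open Matrix

def IsHadamard {n : ℕ} (H : Matrix (Fin n) (Fin n) ℤ) : Prop :=
  (∀ i j, H i j = 1 ∨ H i j = -1) ∧ H * Hᵀ = (n : ℤ) • (1 : Matrix (Fin n) (Fin n) ℤ)

/-- Some other Hadamard matrix differs from `H` exactly at the positions of `T`. -/
def IsTrade {n : ℕ} (H : Matrix (Fin n) (Fin n) ℤ) (T : Finset (Fin n × Fin n)) : Prop :=
  ∃ H', IsHadamard H' ∧ H' ≠ H ∧ ∀ i j, H' i j ≠ H i j ↔ (i, j) ∈ T

def IsRectTrade {n : ℕ} (H : Matrix (Fin n) (Fin n) ℤ) (T : Finset (Fin n × Fin n)) : Prop :=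
  IsTrade H T ∧ ∃ A B : Finset (Fin n), T = A ×ˢ B

/-- Indicator vector over `ℤ/2`. -/
def ind {n : ℕ} (T : Finset (Fin n × Fin n)) : Fin n × Fin n → ZMod 2 :=
  fun p => if p ∈ T then 1 else 0

def H : Matrix (Fin 4) (Fin 4) ℤ := !![1, 1, 1, 1; 1, -1, 1, -1; 1, 1, -1, -1; 1, -1, -1, 1]

def H' : Matrix (Fin 4) (Fin 4) ℤ := !![1, 1, -1, 1; 1, -1, 1, 1; 1, -1, -1, -1; -1, -1, -1, 1]

def T : Finset (Fin 4 × Fin 4) := {(0, 2), (1, 3), (2, 1), (3, 0)}

def phi (v : Fin 4 × Fin 4 → ZMod 2) : ZMod 2 :=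
  v (0, 1) + v (0, 2) + v (1, 0) + v (1, 1) + v (2, 0) + v (2, 2)

def ng (A B : Finset (Fin 4)) (i j : Fin 4) : ℤ := if i ∈ A ∧ j ∈ B then - H i j else H i j

lemma key : ∀ A B : Finset (Fin 4), (∀ i k, i ≠ k → ∑ j, ng A B i j * ng A B k j = 0) →
    phi (ind (A ×ˢ B)) = 0 := by decide +kernel

lemma hH : IsHadamard H := by unfold IsHadamard; decide +kernel
lemma hH' : IsHadamard H' := by unfold IsHadamard; decide +kernel

lemma rect (R : Finset (Fin 4 × Fin 4)) (h : IsRectTrade H R) : phi (ind R) = 0 := by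
  obtain ⟨⟨M, hM, _, hd⟩, A, B, rfl⟩ := h
  have e : ∀ i j, M i j = ng A B i j := by
    intro i j
    have h1 := hd i j
    rw [Finset.mem_product] at h1
    unfold ng
    split_ifs with h2
    · have := h1.2 h2
      rcases hM.1 i j with a | a <;> rcases hH.1 i j with b | b <;> omega
    · by_contra h3
      exact h2 (h1.1 h3)
  refine key A B fun i k hik => ?_
  have := congrFun (congrFun hM.2 i) k
  simp only [Matrix.mul_apply, Matrix.transpose_apply, e] at this
  rw [this]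
  simp [hik]

theorem result : ∃ (n : ℕ) (M : Matrix (Fin n) (Fin n) ℤ) (S : Finset (Fin n × Fin n)),
    IsHadamard M ∧ IsTrade M S ∧ S.card = n ∧
    ind S ∉ Submodule.span (ZMod 2) {v | ∃ R, IsRectTrade M R ∧ v = ind R} := by
  refine ⟨4, H, T, hH, ⟨H', hH', by decide +kernel, by decide +kernel⟩, by decide +kernel,
    fun h => ?_⟩
  have : ∀ v ∈ Submodule.span (ZMod 2) {v | ∃ R, IsRectTrade H R ∧ v = ind R}, phi v = 0 := by
    intro v hv
    induction hv using Submodule.span_induction with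
    | mem x hx => obtain ⟨R, hR, rfl⟩ := hx; exact rect R hR
    | zero => rfl
    | add x y _ _ hx hy =>
      simp only [phi, Pi.add_apply] at hx hy ⊢
      linear_combination hx + hy
    | smul a x _ hx =>
      simp only [phi, Pi.smul_apply, smul_eq_mul] at hx ⊢
      linear_combination a * hx
  exact absurd (this _ h) (by decide +kernel)

end Pool.Agent.Results.MP_78a590_co.Disproof
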